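import Pool.Agent.Work.MP_db9399_oxe_helper48.Defs

/-!
# MP_db9399, OUTX: the numbers of the classes (helper68)
-/

set_option autoImplicit false

namespace Pool.Agent.Work.MP_db9399_outx.helper68

open Finset Classical
open Pool.Agent.Work.MP_db9399_iv
open Pool.Agent.Work.MP_db9399_oxe (NmX)

universe u

theorem univ_Cx : (univ : Finset Cx.{u}) =
    {Cx.C 0, Cx.C 1, Cx.C 2, Cx.Q false, Cx.Q true, Cx.R} := by
  ext κ
  constructor
  · intro _
    rcases κ with j | i | _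
    · fin_cases j <;> simp
    · cases i <;> simp
    · simp
  · intro _
    exact mem_univ _

theorem sum_Cx (f : Cx.{u} → ℕ) : ∑ κ, f κ = f (Cx.C 0) + f (Cx.C 1) + f (Cx.C 2) +
    f (Cx.Q false) + f (Cx.Q true) + f Cx.R := by
  rw [univ_Cx]
  repeat rw [sum_insert (by simp)]
  rw [sum_singleton]
  ring

theorem card_Ico {P u v : ℕ} (hv : v ≤ P) :
    (univ.filter fun b : Fin P => u ≤ (b : ℕ) ∧ (b : ℕ) < v).card = v - u := by
  rw [← Nat.card_Ico]
  refine card_bij (fun b _ => (b : ℕ)) ?_ ?_ ?_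
  · intro b hb
    exact mem_Ico.2 (mem_filter.1 hb).2
  · intro b _ b' _ h
    exact Fin.ext h
  · intro b hb
    obtain ⟨h1, h2⟩ := mem_Ico.1 hb
    exact ⟨⟨b, by omega⟩, mem_filter.2 ⟨mem_univ _, h1, h2⟩, rfl⟩

/-- the class of a colour -/
def clx (P c q : ℕ) (b : Fin P) : Cx.{u} :=
  if (b : ℕ) < c then Cx.C 0 else if (b : ℕ) < 2 * c then Cx.C 1 else
    if (b : ℕ) < 3 * c then Cx.C 2 else if (b : ℕ) < 3 * c + q then Cx.Q false else
      if (b : ℕ) < 3 * c + 2 * q then Cx.Q true else Cx.R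

theorem clx_C {P c q : ℕ} (h : 3 * c + 2 * q ≤ P) (j : Fin 3) :
    (univ.filter fun b : Fin P => clx.{u} P c q b = Cx.C j).card = c := by
  have h1 : (univ.filter fun b : Fin P => clx.{u} P c q b = Cx.C j) =
      univ.filter fun b : Fin P => (j : ℕ) * c ≤ (b : ℕ) ∧ (b : ℕ) < ((j : ℕ) + 1) * c := by
    refine filter_congr fun b _ => ?_
    unfold clx
    fin_cases j
    · split_ifs <;> simp <;> omega
    · split_ifs <;> simp <;> omega
    · split_ifs <;> simp <;> omega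
  rw [h1, card_Ico]
  · rw [← Nat.sub_mul]
    simp
  · have : (j : ℕ) + 1 ≤ 3 := j.2
    calc ((j : ℕ) + 1) * c ≤ 3 * c := Nat.mul_le_mul_right _ this
      _ ≤ P := by omega

theorem clx_Q {P c q : ℕ} (h : 3 * c + 2 * q ≤ P) (i : Bool) :
    (univ.filter fun b : Fin P => clx.{u} P c q b = Cx.Q i).card = q := by
  cases i
  · have h1 : (univ.filter fun b : Fin P => clx.{u} P c q b = Cx.Q false) =
        univ.filter fun b : Fin P => 3 * c ≤ (b : ℕ) ∧ (b : ℕ) < 3 * c + q := by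
      refine filter_congr fun b _ => ?_
      unfold clx
      split_ifs <;> simp <;> omega
    rw [h1, card_Ico (by omega)]
    omega
  · have h1 : (univ.filter fun b : Fin P => clx.{u} P c q b = Cx.Q true) =
        univ.filter fun b : Fin P => 3 * c + q ≤ (b : ℕ) ∧ (b : ℕ) < 3 * c + 2 * q := by
      refine filter_congr fun b _ => ?_
      unfold clx
      split_ifs <;> simp <;> omega
    rw [h1, card_Ico (by omega)]
    omega

theorem clx_R {P c q : ℕ} (h : 3 * c + 2 * q ≤ P) :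
    (univ.filter fun b : Fin P => clx.{u} P c q b = Cx.R).card = P - (3 * c + 2 * q) := by
  have h1 : (univ.filter fun b : Fin P => clx.{u} P c q b = Cx.R) =
      univ.filter fun b : Fin P => 3 * c + 2 * q ≤ (b : ℕ) ∧ (b : ℕ) < P := by
    refine filter_congr fun b _ => ?_
    have hb := b.2
    unfold clx
    split_ifs <;> simp <;> omega
  rw [h1, card_Ico le_rfl]

/-- the degree of a class -/
def Dx (c q s r : ℕ) : Cx.{u} → ℕ
  | Cx.C _ => c + r
  | Cx.Q _ => q + r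
  | Cx.R => s + r

/-- **NUMX** -/
theorem numx (πk a : ℝ) (hπ : 1 / 4 ≤ πk) (hπ1 : πk < 1 / 3) (ha : 0 < a) (ha1 : a ≤ 1 / 100) :
    ∃ d0 : ℕ, ∀ d : ℕ, d0 ≤ d → ∃ (P : ℕ) (D r : Cx.{u} → ℕ) (cl : Fin P → Cx.{u}),
      NmX πk (100 / (1 - 3 * πk)) a d P D r cl ∧ ShaX πk d D ∧ (∀ κ, Odd (r κ)) ∧
      (∀ κ, D κ ≤ d) ∧ P + ∑ κ, r κ = d := by
  obtain ⟨e, he⟩ : ∃ e : ℝ, e = 1 - 3 * πk := ⟨_, rfl⟩
  have he0 : 0 < e := by rw [he]; linarith
  have he1 : e ≤ 1 / 4 := by rw [he]; linarith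
  obtain ⟨K, hK⟩ : ∃ K : ℝ, K = 10 ^ 6 / e := ⟨_, rfl⟩
  have hK0 : 0 < K := by rw [hK]; positivity
  refine ⟨max 1 ⌈K ^ (3 / (2 * a))⌉₊, ?_⟩
  intro d hd
  have hd1 : 1 ≤ d := le_trans (le_max_left _ _) hd
  have hdr1 : (1 : ℝ) ≤ d := by exact_mod_cast hd1
  have hdr0 : (0 : ℝ) < d := by linarith
  have hdK : K ^ (3 / (2 * a)) ≤ (d : ℝ) :=
    (Nat.le_ceil _).trans (by exact_mod_cast le_trans (le_max_right _ _) hd)
  have hKd : K ≤ (d : ℝ) ^ (2 * a / 3) := by
    calc K = (K ^ (3 / (2 * a))) ^ (2 * a / 3) := by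
          rw [← Real.rpow_mul hK0.le]
          have : 3 / (2 * a) * (2 * a / 3) = 1 := by field_simp
          rw [this, Real.rpow_one]
      _ ≤ _ := Real.rpow_le_rpow (by positivity) hdK (by positivity)
  obtain ⟨x, hx⟩ : ∃ x : ℝ, x = (d : ℝ) ^ (1 - a) := ⟨_, rfl⟩
  obtain ⟨y, hy⟩ : ∃ y : ℝ, y = (d : ℝ) ^ (1 - a / 3) := ⟨_, rfl⟩
  have hx1 : 1 ≤ x := by rw [hx]; exact Real.one_le_rpow hdr1 (by linarith)
  have hyd : y ≤ d := by
    rw [hy]
    calc (d : ℝ) ^ (1 - a / 3) ≤ (d : ℝ) ^ (1 : ℝ) :=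
          Real.rpow_le_rpow_of_exponent_le hdr1 (by linarith)
      _ = d := Real.rpow_one _
  have hy0 : 0 < y := by rw [hy]; positivity
  have hxy : K * x ≤ y := by
    have h1 : y = (d : ℝ) ^ (2 * a / 3) * x := by
      rw [hy, hx, ← Real.rpow_add hdr0]
      congr 1
      ring
    rw [h1]
    exact mul_le_mul_of_nonneg_right hKd (by linarith)
  have hxy' : 10 ^ 6 * x ≤ e * y := by
    have h1 : e * K = 10 ^ 6 := by rw [hK]; field_simp
    calc 10 ^ 6 * x = e * (K * x) := by rw [← mul_assoc, h1]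
      _ ≤ e * y := mul_le_mul_of_nonneg_left hxy he0.le
  have hxd : 10 ^ 6 * x ≤ e * d := hxy'.trans (mul_le_mul_of_nonneg_left hyd he0.le)
  obtain ⟨c, hc⟩ : ∃ c : ℕ, c = ⌈πk * d⌉₊ := ⟨_, rfl⟩
  obtain ⟨q, hq⟩ : ∃ q : ℕ, q = ⌈e / 100 * d⌉₊ := ⟨_, rfl⟩
  obtain ⟨r0, hr0⟩ : ∃ r0 : ℕ, r0 = 2 * ⌈x⌉₊ + 1 := ⟨_, rfl⟩
  have hc1 : πk * d ≤ c := by rw [hc]; exact Nat.le_ceil _
  have hc2 : (c : ℝ) ≤ πk * d + 1 := by
    rw [hc]
    exact (Nat.ceil_lt_add_one (by positivity)).le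
  have hq1 : e / 100 * d ≤ q := by rw [hq]; exact Nat.le_ceil _
  have hq2 : (q : ℝ) ≤ e / 100 * d + 1 := by
    rw [hq]
    exact (Nat.ceil_lt_add_one (by positivity)).le
  have hr1 : 2 * x ≤ r0 := by
    have := Nat.le_ceil x
    rw [hr0]
    push_cast
    linarith
  have hr2 : (r0 : ℝ) ≤ 2 * x + 3 := by
    have := (Nat.ceil_lt_add_one (by linarith : (0 : ℝ) ≤ x)).le
    rw [hr0]
    push_cast
    linarith
  have hodd : Odd r0 := ⟨⌈x⌉₊, by rw [hr0]⟩
  have hπe : πk * d = (d - e * d) / 3 := by rw [he]; ring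
  have htot : 6 * r0 + 3 * c + 2 * q ≤ d := by
    have h1 : ((6 * r0 + 3 * c + 2 * q : ℕ) : ℝ) ≤ d := by
      push_cast
      linarith
    exact_mod_cast h1
  obtain ⟨P, hP⟩ : ∃ P : ℕ, P = d - 6 * r0 := ⟨_, rfl⟩
  obtain ⟨s, hs⟩ : ∃ s : ℕ, s = P - (3 * c + 2 * q) := ⟨_, rfl⟩
  have hPc : 3 * c + 2 * q ≤ P := by omega
  have hsr : (s : ℝ) = d - 6 * r0 - 3 * c - 2 * q := by
    have h1 : s + 6 * r0 + 3 * c + 2 * q = d := by omega
    have h2 : ((s + 6 * r0 + 3 * c + 2 * q : ℕ) : ℝ) = d := by rw [h1]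
    push_cast at h2
    linarith
  have hDlow : ∀ κ, e / 100 * d ≤ (Dx.{u} c q s r0 κ : ℝ) := by
    have hed : e * d ≤ 1 / 4 * d := mul_le_mul_of_nonneg_right he1 hdr0.le
    have hed0 : 0 < e * d := by positivity
    rintro (j | i | _)
    · simp only [Dx]
      push_cast
      linarith
    · simp only [Dx]
      push_cast
      linarith
    · simp only [Dx]
      push_cast
      rw [hsr]
      linarith
  have hDup : ∀ κ, Dx.{u} c q s r0 κ ≤ d := by
    rintro (j | i | _) <;> simp only [Dx] <;> omega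
  refine ⟨P, Dx c q s r0, fun _ => r0, clx P c q, ?_, ?_, fun _ => hodd, hDup, ?_⟩
  · have hDpos : ∀ κ, (0 : ℝ) < (Dx.{u} c q s r0 κ : ℝ) := fun κ =>
      lt_of_lt_of_le (by positivity) (hDlow κ)
    refine { cr := ?_, sum := ?_, Dd := ?_, rlo := ?_, rhi := ?_, pC := ?_, pQ := ?_ }
    · rintro (j | i | _)
      · rw [clx_C hPc]
        rfl
      · rw [clx_Q hPc]
        rfl
      · rw [clx_R hPc, ← hs]
        rfl
    · rw [sum_Cx]
      simp only [Dx]
      omega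
    · intro κ
      have h1 := hDlow κ
      rw [← he, div_mul_eq_mul_div, le_div_iff₀ he0]
      linarith
    · intro κ
      have h1 : (Dx.{u} c q s r0 κ : ℝ) ≤ d := by exact_mod_cast hDup κ
      have h2 : (Dx.{u} c q s r0 κ : ℝ) ^ (1 - a) ≤ x := by
        rw [hx]
        exact Real.rpow_le_rpow (hDpos κ).le h1 (by linarith)
      linarith
    · intro κ
      have h1 : (e / 100 * d) ^ (1 - a / 3) ≤ (Dx.{u} c q s r0 κ : ℝ) ^ (1 - a / 3) :=
        Real.rpow_le_rpow (by positivity) (hDlow κ) (by linarith)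
      have h2 : e / 100 * y ≤ (e / 100 * d) ^ (1 - a / 3) := by
        rw [Real.mul_rpow (by positivity) hdr0.le, ← hy]
        refine mul_le_mul_of_nonneg_right ?_ hy0.le
        calc e / 100 = (e / 100) ^ (1 : ℝ) := (Real.rpow_one _).symm
          _ ≤ (e / 100) ^ (1 - a / 3) :=
            Real.rpow_le_rpow_of_exponent_ge (by positivity) (by linarith) (by linarith)
      have h3 : (r0 : ℝ) + 2 ≤ e / 100 * y := by
        have : 10 ^ 6 * x ≤ e * y := hxy'
        linarith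
      linarith
    · intro j
      rw [clx_C hPc]
      exact ⟨hc1, hc2⟩
    · intro i
      rw [clx_Q hPc, ← he]
      exact ⟨hq1, hq2⟩
  · have hsm : (r0 : ℝ) + 1 ≤ e / 10 ^ 4 * d := by
      have : (e : ℝ) / 10 ^ 4 * d = e * d / 10 ^ 4 := by ring
      rw [this, le_div_iff₀ (by norm_num)]
      linarith
    refine { eC := fun _ _ => rfl, eQ := rfl, C := ?_, Q := ?_, sum := ?_ }
    · intro j
      rw [← he]
      simp only [Dx]
      push_cast
      rw [abs_le]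
      have h0 : (0 : ℝ) ≤ r0 := Nat.cast_nonneg _
      constructor <;> linarith
    · intro i
      rw [← he]
      simp only [Dx]
      push_cast
      rw [abs_le]
      have h0 : (0 : ℝ) ≤ r0 := Nat.cast_nonneg _
      constructor <;> linarith
    · rw [sum_Cx]
      simp only [Dx]
      omega
  · rw [sum_Cx]
    omega

end Pool.Agent.Work.MP_db9399_outx.helper68
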